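import Pool.Agent.CMG.Stmts

/-!
# CMG, row KLE: a completely metrizable precompact group is compact

No completion and no uniformity is needed: an ultrafilter `f` on a precompact group is Cauchy on both sides,
and by Baire's theorem there is a point `y` such that `f y` is a Cauchy filter for the complete metric.
-/

set_option autoImplicit false

open Set Topology Filter
open scoped Pointwise

namespace Pool.Agent.CMG.H77

open Pool.Agent.LSG Pool.Agent.CMG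

section
variable {H : Type} [Group H] [TopologicalSpace H] [IsTopologicalGroup H]

/-- Ultrafilters on precompact groups are Cauchy on both sides. -/
theorem kle_ult (hp : ∀ U ∈ 𝓝 (1 : H), ∃ F : Finset H, (⋃ g ∈ F, g • U) = Set.univ)
    (f : Ultrafilter H) (U : Set H) (hU : U ∈ 𝓝 (1 : H)) :
    ∃ A ∈ f, (∀ a ∈ A, ∀ b ∈ A, a⁻¹ * b ∈ U) ∧ ∀ a ∈ A, ∀ b ∈ A, a * b⁻¹ ∈ U := by
  obtain ⟨V₁, hV₁, hV⟩ := exists_nhds_one_split hU
  obtain ⟨F, hF⟩ := hp (V₁ ∩ V₁⁻¹) (Filter.inter_mem hV₁ (inv_mem_nhds_one H hV₁))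
  have hsplit : ∀ h : Ultrafilter H, ∃ g : H, g • (V₁ ∩ V₁⁻¹) ∈ h := by
    intro h
    have h1 : (⋃ g ∈ (F : Set H), g • (V₁ ∩ V₁⁻¹)) ∈ h := by
      have h2 : (⋃ g ∈ (F : Set H), g • (V₁ ∩ V₁⁻¹)) = Set.univ := by
        rw [← hF]
        rfl
      rw [h2]
      exact Filter.univ_mem
    rw [Ultrafilter.finite_biUnion_mem_iff F.finite_toSet] at h1
    obtain ⟨g, _, hg⟩ := h1
    exact ⟨g, hg⟩
  have hsm : ∀ g x y : H, x ∈ g • (V₁ ∩ V₁⁻¹) → y ∈ g • (V₁ ∩ V₁⁻¹) → x⁻¹ * y ∈ U := by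
    intro g x y hx hy
    rw [Set.mem_smul_set] at hx hy
    obtain ⟨v, hv, rfl⟩ := hx
    obtain ⟨w, hw, rfl⟩ := hy
    have h1 : (g • v)⁻¹ * (g • w) = v⁻¹ * w := by
      rw [smul_eq_mul, smul_eq_mul]
      group
    rw [h1]
    exact hV _ hv.2 _ hw.1
  obtain ⟨g, hg⟩ := hsplit f
  obtain ⟨g', hg'⟩ := hsplit (f.map fun x => x⁻¹)
  rw [Ultrafilter.mem_map] at hg'
  refine ⟨_, Filter.inter_mem hg hg', ?_, ?_⟩
  · intro a ha b hb
    exact hsm g a b ha.1 hb.1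
  · intro a ha b hb
    have h1 := hsm g' a⁻¹ b⁻¹ ha.2 hb.2
    rwa [inv_inv] at h1

end

theorem kle : KleStmt := by
  intro H _ _ _ _ hp
  let _ := TopologicalSpace.upgradeIsCompletelyMetrizable H
  rw [← isCompact_univ_iff, isCompact_iff_ultrafilter_le_nhds]
  intro f _
  -- the open dense sets
  obtain ⟨O, hO⟩ : ∃ O : ℕ → Set H, ∀ k y, y ∈ O k ↔ ∃ W ∈ 𝓝 y, ∃ A ∈ f, ∀ a ∈ A, ∀ a' ∈ A,
      ∀ w ∈ W, ∀ w' ∈ W, dist (a * w) (a' * w') < 1 / ((k : ℝ) + 1) :=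
    ⟨fun k => {y | ∃ W ∈ 𝓝 y, ∃ A ∈ f, ∀ a ∈ A, ∀ a' ∈ A,
      ∀ w ∈ W, ∀ w' ∈ W, dist (a * w) (a' * w') < 1 / ((k : ℝ) + 1)}, fun k y => Iff.rfl⟩
  have hopen : ∀ k, IsOpen (O k) := by
    intro k
    rw [isOpen_iff_mem_nhds]
    intro y hy
    rw [hO] at hy
    obtain ⟨W, hW, A, hA, h⟩ := hy
    filter_upwards [eventually_mem_nhds_iff.2 hW] with z hz
    rw [hO]
    exact ⟨W, hz, A, hA, h⟩
  have hdense : ∀ k, Dense (O k) := by
    intro k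
    rw [dense_iff_inter_open]
    rintro W₀ hW₀ ⟨y₀, hy₀⟩
    have hk : (0 : ℝ) < 1 / ((k : ℝ) + 1) := by positivity
    -- `V y₀ ⊆ W₀`
    have hVn : (fun v : H => v * y₀) ⁻¹' W₀ ∈ 𝓝 (1 : H) := by
      apply (continuous_mul_const y₀).continuousAt
      show W₀ ∈ 𝓝 (1 * y₀)
      rw [one_mul]
      exact hW₀.mem_nhds hy₀
    obtain ⟨A₀, hA₀, hA₀l, _⟩ := kle_ult hp f _ hVn
    obtain ⟨a₀, ha₀⟩ := f.nonempty_of_mem hA₀
    -- `V' Q ⊆ B`
    have hB : Metric.ball (a₀ * y₀) (1 / ((k : ℝ) + 1) / 2) ∈ 𝓝 (a₀ * y₀) :=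
      Metric.ball_mem_nhds _ (half_pos hk)
    have hmul : (fun p : H × H => p.1 * p.2) ⁻¹' Metric.ball (a₀ * y₀) (1 / ((k : ℝ) + 1) / 2) ∈
        𝓝 ((1 : H), a₀ * y₀) := by
      apply continuous_mul.continuousAt
      show Metric.ball (a₀ * y₀) (1 / ((k : ℝ) + 1) / 2) ∈ 𝓝 (1 * (a₀ * y₀))
      rw [one_mul]
      exact hB
    rw [mem_nhds_prod_iff] at hmul
    obtain ⟨V', hV', Q, hQ, hVQ⟩ := hmul
    obtain ⟨A₁, hA₁, _, hA₁r⟩ := kle_ult hp f V' hV'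
    obtain ⟨b, hb₀, hb₁⟩ := f.nonempty_of_mem (Filter.inter_mem hA₀ hA₁)
    refine ⟨b⁻¹ * (a₀ * y₀), ?_, ?_⟩
    · have h1 := hA₀l b hb₀ a₀ ha₀
      rw [← mul_assoc]
      exact h1
    · rw [hO]
      refine ⟨(fun w : H => b * w) ⁻¹' Q, ?_, A₁, hA₁, ?_⟩
      · apply (continuous_const_mul b).continuousAt
        show Q ∈ 𝓝 (b * (b⁻¹ * (a₀ * y₀)))
        rw [mul_inv_cancel_left]
        exact hQ
      · have key : ∀ a ∈ A₁, ∀ w ∈ (fun w : H => b * w) ⁻¹' Q,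
            dist (a * w) (a₀ * y₀) < 1 / ((k : ℝ) + 1) / 2 := by
          intro a ha w hw
          have h1 : (a * b⁻¹, b * w) ∈ V' ×ˢ Q := ⟨hA₁r a ha b hb₁, hw⟩
          have h2 := hVQ h1
          have h3 : (a * b⁻¹) * (b * w) = a * w := by group
          have h4 : (a * b⁻¹) * (b * w) ∈ Metric.ball (a₀ * y₀) (1 / ((k : ℝ) + 1) / 2) := h2
          rw [h3] at h4
          exact h4
        intro a ha a' ha' w hw w' hw'
        have h1 := key a ha w hw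
        have h2 := key a' ha' w' hw'
        have h3 := dist_triangle_right (a * w) (a' * w') (a₀ * y₀)
        linarith
  have hne : (⋂ k, O k).Nonempty := (dense_iInter_of_isOpen_nat hopen hdense).nonempty
  obtain ⟨y, hy⟩ := hne
  rw [Set.mem_iInter] at hy
  have hcau : Cauchy (Filter.map (fun x : H => x * y) (f : Filter H)) := by
    rw [Metric.cauchy_iff]
    refine ⟨inferInstance, fun ε hε => ?_⟩
    obtain ⟨k, hk⟩ := exists_nat_one_div_lt hε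
    obtain ⟨W, hW, A, hA, h⟩ := (hO k y).1 (hy k)
    refine ⟨(fun x : H => x * y) '' A, Filter.image_mem_map hA, ?_⟩
    rintro _ ⟨a, ha, rfl⟩ _ ⟨a', ha', rfl⟩
    exact (h a ha a' ha' y (mem_of_mem_nhds hW) y (mem_of_mem_nhds hW)).trans hk
  obtain ⟨z, hz⟩ := CompleteSpace.complete hcau
  refine ⟨z * y⁻¹, Set.mem_univ _, ?_⟩
  have h1 : Tendsto (fun x : H => x * y * y⁻¹) (f : Filter H) (𝓝 (z * y⁻¹)) :=
    Tendsto.mul_const y⁻¹ hz
  have h2 : (fun x : H => x * y * y⁻¹) = id := funext fun x => mul_inv_cancel_right x y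
  rw [h2] at h1
  exact h1

end Pool.Agent.CMG.H77
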